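import Pool.Agent.H174.GM.Stmts2

/-!
# Task LIT of project GM (helper174), written by helper946
-/

set_option autoImplicit false

namespace Pool.Agent.H946.GM

open Pool.Agent.H174.GM Finset

/-! ### combinatorial part -/

section comb
variable {R : Type*} [CommRing R]

/-- strictly increasing exponents below `M` -/
def AS (M k : ℕ) : Finset (Fin k → ℕ) :=
  (Fintype.piFinset fun _ : Fin k => Finset.range M).filter fun α => ∀ i j : Fin k, i < j → α i < α j

lemma mem_AS {M k : ℕ} {α : Fin k → ℕ} :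
    α ∈ AS M k ↔ (∀ i, α i < M) ∧ ∀ i j : Fin k, i < j → α i < α j := by
  simp [AS, Fintype.mem_piFinset]

/-- truncated sum -/
def LL (M : ℕ) {k : ℕ} (X : Fin k → R) : R := ∑ α ∈ AS M k, vv α X

lemma vv_succ {k : ℕ} (β : Fin k → ℕ) (X : Fin k → R) :
    vv (fun i => β i + 1) X = (∏ i, X i) * vv β X := by
  unfold vv
  rw [Finset.mul_sum]
  refine Finset.sum_congr rfl fun σ _ => ?_
  rw [mul_smul_comm]
  congr 1
  rw [← Equiv.prod_comp σ X, ← Finset.prod_mul_distrib]
  refine Finset.prod_congr rfl fun i _ => ?_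
  rw [pow_succ, mul_comm]

lemma vv_det {k : ℕ} (β : Fin k → ℕ) (X : Fin k → R) :
    vv β X = (Matrix.of fun i j => X i ^ β j).det := by
  rw [Matrix.det_apply]
  unfold vv
  refine Finset.sum_congr rfl fun σ _ => ?_
  simp only [Matrix.of_apply, Units.smul_def]

lemma vv_cons {k : ℕ} (β : Fin k → ℕ) (X : Fin (k + 1) → R) :
    vv (Fin.cons 0 (fun i => β i + 1) : Fin (k + 1) → ℕ) X =
      ∑ j : Fin (k + 1), (-1) ^ j.1 * ((∏ q, X (j.succAbove q)) * vv β (X ∘ j.succAbove)) := by
  rw [vv_det, Matrix.det_succ_column_zero]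
  refine Finset.sum_congr rfl fun j _ => ?_
  have h := vv_succ β (X ∘ j.succAbove)
  simp only [Function.comp] at h
  rw [Matrix.of_apply, Fin.cons_zero, pow_zero, mul_one]
  congr 1
  have h2 : (∏ q, X (j.succAbove q)) * vv β (X ∘ j.succAbove) =
      vv (fun i => β i + 1) (X ∘ j.succAbove) := h.symm
  rw [h2, vv_det]
  congr 1

lemma LL_succ (M k : ℕ) (X : Fin (k + 1) → R) :
    LL (M + 1) X = (∏ i, X i) * LL M X +
      ∑ j : Fin (k + 1), (-1) ^ j.1 * ((∏ q, X (j.succAbove q)) * LL M (X ∘ j.succAbove)) := by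
  have h0 : LL (M + 1) X = (∑ α ∈ (AS (M + 1) (k + 1)).filter (fun α => ¬ α 0 = 0), vv α X) +
      ∑ α ∈ (AS (M + 1) (k + 1)).filter (fun α => α 0 = 0), vv α X := by
    exact ((add_comm _ _).trans (Finset.sum_filter_add_sum_filter_not _ _ _)).symm
  have h1 : ∑ α ∈ (AS (M + 1) (k + 1)).filter (fun α => ¬ α 0 = 0), vv α X =
      ∑ β ∈ AS M (k + 1), vv (fun i => β i + 1) X := by
    refine Finset.sum_bij' (fun α _ i => α i - 1) (fun β _ i => β i + 1) ?_ ?_ ?_ ?_ ?_
    · intro α hα
      rw [mem_filter, mem_AS] at hα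
      obtain ⟨⟨h1, h2⟩, h3⟩ := hα
      have hpos : ∀ i, 1 ≤ α i := by
        intro i
        rcases Fin.eq_zero_or_eq_succ i with rfl | ⟨i', rfl⟩
        · omega
        · have := h2 0 i'.succ (Fin.succ_pos i')
          omega
      rw [mem_AS]
      refine ⟨fun i => ?_, fun i j hij => ?_⟩
      · have := h1 i; have := hpos i; omega
      · have := h2 i j hij; have := hpos i; omega
    · intro β hβ
      rw [mem_AS] at hβ
      rw [mem_filter, mem_AS]
      refine ⟨⟨fun i => ?_, fun i j hij => ?_⟩, ?_⟩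
      · have := hβ.1 i; omega
      · have := hβ.2 i j hij; omega
      · exact Nat.succ_ne_zero _
    · intro α hα
      rw [mem_filter, mem_AS] at hα
      obtain ⟨⟨h1, h2⟩, h3⟩ := hα
      funext i
      have hpos : 1 ≤ α i := by
        rcases Fin.eq_zero_or_eq_succ i with rfl | ⟨i', rfl⟩
        · omega
        · have := h2 0 i'.succ (Fin.succ_pos i')
          omega
      change α i - 1 + 1 = α i
      omega
    · intro β _
      funext i
      change β i + 1 - 1 = β i
      omega
    · intro α hα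
      rw [mem_filter, mem_AS] at hα
      obtain ⟨⟨h1, h2⟩, h3⟩ := hα
      congr 1
      funext i
      have hpos : 1 ≤ α i := by
        rcases Fin.eq_zero_or_eq_succ i with rfl | ⟨i', rfl⟩
        · omega
        · have := h2 0 i'.succ (Fin.succ_pos i')
          omega
      change α i = α i - 1 + 1
      omega
  have h2 : ∑ α ∈ (AS (M + 1) (k + 1)).filter (fun α => α 0 = 0), vv α X =
      ∑ β ∈ AS M k, vv (Fin.cons 0 (fun i => β i + 1) : Fin (k + 1) → ℕ) X := by
    refine Finset.sum_bij' (fun α _ i => α i.succ - 1)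
      (fun β _ => (Fin.cons 0 (fun i => β i + 1) : Fin (k + 1) → ℕ)) ?_ ?_ ?_ ?_ ?_
    · intro α hα
      rw [mem_filter, mem_AS] at hα
      obtain ⟨⟨h1, h2⟩, h3⟩ := hα
      have hpos : ∀ i : Fin k, 1 ≤ α i.succ := by
        intro i
        have := h2 0 i.succ (Fin.succ_pos i)
        omega
      rw [mem_AS]
      refine ⟨fun i => ?_, fun i j hij => ?_⟩
      · have := h1 i.succ; have := hpos i; omega
      · have := h2 i.succ j.succ (Fin.succ_lt_succ_iff.2 hij); have := hpos i; omega
    · intro β hβ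
      rw [mem_AS] at hβ
      rw [mem_filter, mem_AS]
      refine ⟨⟨fun i => ?_, fun i j hij => ?_⟩, rfl⟩
      · rcases Fin.eq_zero_or_eq_succ i with rfl | ⟨i', rfl⟩
        · rw [Fin.cons_zero]; omega
        · rw [Fin.cons_succ]; have := hβ.1 i'; omega
      · rcases Fin.eq_zero_or_eq_succ j with rfl | ⟨j', rfl⟩
        · exact absurd hij (Fin.not_lt_zero _)
        · rw [Fin.cons_succ]
          rcases Fin.eq_zero_or_eq_succ i with rfl | ⟨i', rfl⟩
          · rw [Fin.cons_zero]; omega
          · rw [Fin.cons_succ]; have := hβ.2 i' j' (Fin.succ_lt_succ_iff.1 hij); omega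
    · intro α hα
      rw [mem_filter, mem_AS] at hα
      obtain ⟨⟨h1, h2⟩, h3⟩ := hα
      funext i
      rcases Fin.eq_zero_or_eq_succ i with rfl | ⟨i', rfl⟩
      · rw [Fin.cons_zero, h3]
      · rw [Fin.cons_succ]
        have := h2 0 i'.succ (Fin.succ_pos i')
        change α i'.succ - 1 + 1 = α i'.succ
        omega
    · intro β _
      funext i
      rw [Fin.cons_succ]
      omega
    · intro α hα
      rw [mem_filter, mem_AS] at hα
      obtain ⟨⟨h1, h2⟩, h3⟩ := hα
      congr 1
      funext i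
      rcases Fin.eq_zero_or_eq_succ i with rfl | ⟨i', rfl⟩
      · rw [Fin.cons_zero, h3]
      · rw [Fin.cons_succ]
        have := h2 0 i'.succ (Fin.succ_pos i')
        change α i'.succ = α i'.succ - 1 + 1
        omega
  rw [h0, h1, h2]
  congr 1
  · unfold LL
    rw [Finset.mul_sum]
    exact Finset.sum_congr rfl fun β _ => vv_succ β X
  · unfold LL
    rw [Finset.sum_congr rfl fun β _ => vv_cons β X, Finset.sum_comm]
    refine Finset.sum_congr rfl fun j _ => ?_
    rw [Finset.mul_sum, Finset.mul_sum]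

end comb

/-! ### exponents -/

/-- all exponents are nonnegative and one of those of the variables `e i` is `≥ M` -/
def TN {K k : ℕ} (e : Fin k → Fin K) (M : ℕ) (f : E K) : Prop :=
  ∀ γ : Ex K, f.coeff γ ≠ 0 → (∀ l, 0 ≤ ofLex γ l) ∧ ∃ i : Fin k, (M : ℤ) ≤ ofLex γ (e i)

lemma TN_add {K k : ℕ} {e : Fin k → Fin K} {M : ℕ} {f g : E K} (hf : TN e M f) (hg : TN e M g) :
    TN e M (f + g) := by
  intro γ hγ
  by_cases h : f.coeff γ = 0
  · refine hg γ fun h2 => hγ ?_
    rw [HahnSeries.coeff_add, h, h2, add_zero]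
  · exact hf γ h

lemma TN_zero {K k : ℕ} {e : Fin k → Fin K} {M : ℕ} : TN e M (0 : E K) := by
  intro γ hγ
  exact absurd (HahnSeries.coeff_zero) hγ

lemma TN_neg {K k : ℕ} {e : Fin k → Fin K} {M : ℕ} {f : E K} (hf : TN e M f) :
    TN e M (-f) := by
  intro γ hγ
  refine hf γ fun h => hγ ?_
  rw [HahnSeries.coeff_neg, h, neg_zero]

lemma TN_sign {K k : ℕ} {e : Fin k → Fin K} {M : ℕ} {f : E K} (hf : TN e M f) (n : ℕ) :
    TN e M ((-1) ^ n * f) := by
  rcases neg_one_pow_eq_or (E K) n with h | h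
  · rw [h, one_mul]; exact hf
  · rw [h, neg_one_mul]; exact TN_neg hf

lemma TN_sum {K k : ℕ} {e : Fin k → Fin K} {M : ℕ} {ι : Type*} (s : Finset ι) (F : ι → E K)
    (h : ∀ i ∈ s, TN e M (F i)) : TN e M (∑ i ∈ s, F i) := by
  classical
  induction s using Finset.induction_on with
  | empty => rw [Finset.sum_empty]; exact TN_zero
  | insert a s ha ih =>
    rw [Finset.sum_insert ha]
    exact TN_add (h a (Finset.mem_insert_self _ _)) (ih fun i hi => h i (Finset.mem_insert_of_mem hi))

lemma prod_single {K : ℕ} {ι : Type*} (s : Finset ι) (g : ι → Ex K) :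
    ∏ i ∈ s, (HahnSeries.single (g i) (1 : ℚ) : E K) = HahnSeries.single (∑ i ∈ s, g i) 1 := by
  classical
  induction s using Finset.induction_on with
  | empty => rw [Finset.prod_empty, Finset.sum_empty]; rfl
  | insert a s ha ih =>
    rw [Finset.prod_insert ha, ih, HahnSeries.single_mul_single, mul_one, Finset.sum_insert ha]

lemma ofLex_sum {K : ℕ} {ι : Type*} (s : Finset ι) (g : ι → Ex K) (l : Fin K) :
    ofLex (∑ i ∈ s, g i) l = ∑ i ∈ s, ofLex (g i) l := by
  classical
  induction s using Finset.induction_on with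
  | empty => rw [Finset.sum_empty, Finset.sum_empty]; rfl
  | insert a s ha ih =>
    rw [Finset.sum_insert ha, Finset.sum_insert ha, ← ih]; rfl

lemma TN_mul {K k k' : ℕ} {e : Fin k → Fin K} {e' : Fin k' → Fin K} (he' : Function.Injective e')
    (hs : ∀ i', ∃ i, e i = e' i') {M : ℕ} {f : E K} (hf : TN e' M f) :
    TN e (M + 1) ((∏ i, xx (e' i)) * f) := by
  intro γ hγ
  unfold xx at hγ
  rw [prod_single, HahnSeries.coeff_single_mul, one_mul] at hγ
  obtain ⟨h1, i', h2⟩ := hf _ hγ
  have h3 : ∀ l, ofLex (γ - ∑ i : Fin k', toLex (Pi.single (e' i) (1 : ℤ)) : Ex K) l =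
      ofLex γ l - ∑ i : Fin k', (Pi.single (e' i) (1 : ℤ) : Fin K → ℤ) l := by
    intro l
    have : ofLex (γ - ∑ i : Fin k', toLex (Pi.single (e' i) (1 : ℤ)) : Ex K) l =
      ofLex γ l - ofLex (∑ i : Fin k', toLex (Pi.single (e' i) (1 : ℤ)) : Ex K) l := rfl
    rw [this, ofLex_sum]
    rfl
  have h4 : ∀ l, 0 ≤ ∑ i : Fin k', (Pi.single (e' i) (1 : ℤ) : Fin K → ℤ) l := by
    intro l
    refine Finset.sum_nonneg fun i _ => ?_
    rw [Pi.single_apply]
    split_ifs <;> norm_num
  refine ⟨fun l => ?_, ?_⟩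
  · have h5 := h1 l
    rw [h3 l] at h5
    have := h4 l
    omega
  · obtain ⟨i, hi⟩ := hs i'
    refine ⟨i, ?_⟩
    rw [hi]
    rw [h3] at h2
    have h6 : ∑ i : Fin k', (Pi.single (e' i) (1 : ℤ) : Fin K → ℤ) (e' i') = 1 := by
      rw [Finset.sum_eq_single i']
      · rw [Pi.single_eq_same]
      · intro b _ hb
        rw [Pi.single_eq_of_ne]
        exact fun h => hb (he' h.symm)
      · intro h; exact absurd (Finset.mem_univ _) h
    rw [h6] at h2
    push_cast
    omega

/-! ### regularity of `gg` -/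

lemma ge_xx (h5 : S_XF) {K : ℕ} (l a : Fin K) : Ge l 0 (xx a : E K) := by
  by_cases h : a = l
  · subst h
    intro γ hγ
    exact zero_le_one.trans ((h5 K a).2.1 γ hγ)
  · exact ((h5 K l).2.2.2.1 a h).1

lemma ge_one (h5 : S_XF) {K : ℕ} (l : Fin K) : Ge l 0 (1 : E K) := by
  have h := ((h5 K l).2.2.2.2.2.1 1).1
  rwa [map_one] at h

lemma ge_sub (h3 : S_EH1) {K : ℕ} (l : Fin K) {f g : E K} (hf : Ge l 0 f) (hg : Ge l 0 g) :
    Ge l 0 (f - g) := by
  rw [sub_eq_add_neg]
  exact (h3 K l 0 0 f (-g)).2.2.1 hf ((h3 K l 0 0 g g).2.2.2.2.1 hg)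

lemma ge_mul (h3 : S_EH1) {K : ℕ} (l : Fin K) {f g : E K} (hf : Ge l 0 f) (hg : Ge l 0 g) :
    Ge l 0 (f * g) := by
  have := (h3 K l 0 0 f g).1 hf hg
  rwa [add_zero] at this

lemma ge_prod (h3 : S_EH1) (h5 : S_XF) {K : ℕ} (l : Fin K) {ι : Type*} (s : Finset ι)
    (F : ι → E K) (h : ∀ i ∈ s, Ge l 0 (F i)) : Ge l 0 (∏ i ∈ s, F i) := by
  classical
  induction s using Finset.induction_on with
  | empty => rw [Finset.prod_empty]; exact ge_one h5 l
  | insert a s ha ih =>
    rw [Finset.prod_insert ha]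
    exact ge_mul h3 l (h a (Finset.mem_insert_self _ _))
      (ih fun i hi => h i (Finset.mem_insert_of_mem hi))

lemma ge_inv1 (h5 : S_XF) {K : ℕ} (l a : Fin K) : Ge l 0 ((1 - xx a : E K)⁻¹) := by
  by_cases h : a = l
  · subst h
    exact ((h5 K a).2.2.2.2.1 a).2.2
  · obtain ⟨-, -, -, hf, -, hc, hadd, hneg⟩ := h5 K l
    have h1 : Free l (1 : E K) := by
      have := hc 1
      rwa [map_one] at this
    have h2 := (hadd 1 (-xx a) h1 (hneg _ (hf a h)).1).1
    rw [← sub_eq_add_neg] at h2
    exact (hneg _ h2).2.1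

lemma ge_inv2 (h3 : S_EH1) (h4 : S_EH2) (h5 : S_XF) {K : ℕ} (l a b : Fin K) :
    Ge l 0 ((1 - xx a * xx b : E K)⁻¹) := by
  have hlead : Lead (1 - xx a * xx b : E K) 0 := by
    have hs : (xx a * xx b : E K) =
        HahnSeries.single (toLex (Pi.single a (1 : ℤ)) + toLex (Pi.single b (1 : ℤ))) 1 := by
      unfold xx
      rw [HahnSeries.single_mul_single, mul_one]
    have hnn : (0 : Ex K) ≤ toLex (Pi.single a (1 : ℤ)) + toLex (Pi.single b (1 : ℤ)) := by
      have h1 : ∀ c : Fin K, (0 : Ex K) ≤ toLex (Pi.single c (1 : ℤ)) := by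
        intro c
        have : (0 : Fin K → ℤ) ≤ Pi.single c 1 := by
          intro i
          rw [Pi.single_apply]
          split_ifs <;> simp
        exact Pi.toLex_monotone this
      exact add_nonneg (h1 a) (h1 b)
    have hne : (toLex (Pi.single a (1 : ℤ)) + toLex (Pi.single b (1 : ℤ)) : Ex K) ≠ 0 := by
      intro h
      have h2 := congrArg (fun γ : Ex K => ofLex γ a) h
      have h3 : (Pi.single a (1 : ℤ) : Fin K → ℤ) a + (Pi.single b (1 : ℤ) : Fin K → ℤ) a = 0 := h2
      rw [Pi.single_eq_same, Pi.single_apply] at h3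
      split_ifs at h3 <;> omega
    refine ⟨?_, fun δ hδ => ?_⟩
    · rw [HahnSeries.coeff_sub, hs, HahnSeries.coeff_single_of_ne hne.symm]
      simp
    · rw [HahnSeries.coeff_sub, hs, HahnSeries.coeff_single_of_ne (hδ.trans_le hnn).ne]
      have : (1 : E K).coeff δ = 0 := by
        rw [← HahnSeries.single_zero_one]
        exact HahnSeries.coeff_single_of_ne hδ.ne
      rw [this, sub_zero]
  have h := (h4 K _ 0 hlead).2.1 l
  have h0 : ofLex (0 : Ex K) l = 0 := rfl
  rw [h0, neg_zero] at h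
  exact h (ge_sub h3 l (ge_one h5 l) (ge_mul h3 l (ge_xx h5 l a) (ge_xx h5 l b)))

lemma ge_gg (h3 : S_EH1) (h4 : S_EH2) (h5 : S_XF) {K k : ℕ} (e : Fin k → Fin K) (l : Fin K) :
    Ge l 0 (gg (fun i => (xx (e i) : E K))) := by
  unfold gg
  refine ge_mul h3 l (ge_prod h3 h5 l _ _ fun i _ => ge_inv1 h5 l _)
    (ge_prod h3 h5 l _ _ fun p _ => ge_mul h3 l (ge_sub h3 l (ge_xx h5 l _) (ge_xx h5 l _))
      (ge_inv2 h3 h4 h5 l _ _))

theorem lit (h1 : S_LITREC) (h2 : S_EAI) (h3 : S_EH1) (h4 : S_EH2) (h5 : S_XF) :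
    Pool.Agent.H174.GM.S_LIT := by
  have key : ∀ (M K k : ℕ) (e : Fin k ↪ Fin K),
      TN e M (gg (fun i => (xx (e i) : E K)) - LL M (fun i => (xx (e i) : E K))) := by
    intro M
    induction M with
    | zero =>
      intro K k e
      cases k with
      | zero =>
        have h0 : gg (fun i => (xx (e i) : E K)) - LL 0 (fun i => (xx (e i) : E K)) = 0 := by
          have hA : AS 0 0 = {Fin.elim0} := by
            ext α
            rw [mem_AS, mem_singleton]
            refine ⟨fun _ => funext fun i => i.elim0, fun _ => ⟨fun i => i.elim0, fun i => i.elim0⟩⟩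
          unfold gg LL
          rw [hA, sum_singleton]
          simp [vv, pairs]
        rw [h0]
        exact TN_zero
      | succ k =>
        have h0 : LL 0 (fun i => (xx (e i) : E K)) = 0 := by
          have hA : AS 0 (k + 1) = ∅ := by
            rw [Finset.eq_empty_iff_forall_notMem]
            intro α hα
            rw [mem_AS] at hα
            exact absurd (hα.1 0) (Nat.not_lt_zero _)
          unfold LL
          rw [hA, sum_empty]
        rw [h0, sub_zero]
        intro γ hγ
        exact ⟨fun l => ge_gg h3 h4 h5 e l γ hγ, 0, ge_gg h3 h4 h5 e _ γ hγ⟩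
    | succ M ih =>
      intro K k e
      cases k with
      | zero =>
        have h0 : gg (fun i => (xx (e i) : E K)) - LL (M + 1) (fun i => (xx (e i) : E K)) = 0 := by
          have hA : AS (M + 1) 0 = {Fin.elim0} := by
            ext α
            rw [mem_AS, mem_singleton]
            refine ⟨fun _ => funext fun i => i.elim0, fun _ => ⟨fun i => i.elim0, fun i => i.elim0⟩⟩
          unfold gg LL
          rw [hA, sum_singleton]
          simp [vv, pairs]
        rw [h0]
        exact TN_zero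
      | succ k =>
        have hai : AlgebraicIndependent ℚ (fun i => (xx (e i) : E K)) :=
          (h2 K).comp e e.injective
        have hrec := h1 k (E K) _ hai
        have hL := LL_succ M k (fun i => (xx (e i) : E K))
        have hkey : gg (fun i => (xx (e i) : E K)) - LL (M + 1) (fun i => (xx (e i) : E K)) =
            (∏ i, xx (e i)) * (gg (fun i => (xx (e i) : E K)) - LL M (fun i => (xx (e i) : E K))) +
            ∑ j : Fin (k + 1), (-1) ^ j.1 * ((∏ q, xx (e (j.succAbove q))) *
              (gg (fun q => (xx (e (j.succAbove q)) : E K)) -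
                LL M (fun q => (xx (e (j.succAbove q)) : E K)))) := by
          have e1 : ∑ j : Fin (k + 1), (-1) ^ j.1 * ((∏ q, xx (e (j.succAbove q))) *
              (gg (fun q => (xx (e (j.succAbove q)) : E K)) -
                LL M (fun q => (xx (e (j.succAbove q)) : E K)))) =
              (∑ j : Fin (k + 1), (-1) ^ j.1 * (∏ q, xx (e (j.succAbove q))) *
                gg ((fun i => (xx (e i) : E K)) ∘ j.succAbove)) -
              ∑ j : Fin (k + 1), (-1) ^ j.1 * ((∏ q, xx (e (j.succAbove q))) *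
                LL M ((fun i => (xx (e i) : E K)) ∘ j.succAbove)) := by
            rw [← Finset.sum_sub_distrib]
            refine Finset.sum_congr rfl fun j _ => ?_
            simp only [Function.comp_def]
            ring
          rw [e1, ← hrec, hL]
          ring
        rw [hkey]
        refine TN_add (TN_mul e.injective (fun i => ⟨i, rfl⟩) (ih K (k + 1) e))
          (TN_sum _ _ fun j _ => TN_sign ?_ _)
        have h6 := ih K k (j.succAboveEmb.trans e)
        exact TN_mul (e' := fun q => e (j.succAbove q))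
          (e.injective.comp Fin.succAbove_right_injective) (fun i => ⟨_, rfl⟩) h6
  intro K k e M γ hγ
  exact key M K k e γ hγ

end Pool.Agent.H946.GM
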