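import Pool.Agent.H946.GM174.LIT

/-!
# Task MC of project GM (helper174), written by helper946
-/

set_option autoImplicit false

namespace Pool.Agent.H946.GM

open Pool.Agent.H174.GM Finset

/-! ### the determinant -/

section det
variable {F : Type*} [Field F]

/-- `x⁻ˡ - (1-x)⁻ˡ` -/
def dl (l : ℕ) (x : F) : F := x⁻¹ ^ l - (1 - x)⁻¹ ^ l

/-- the monic polynomials -/
noncomputable def pol (F : Type*) [Field F] : ℕ → Polynomial F
  | 0 => 1
  | 1 => Polynomial.X
  | n + 2 => Polynomial.X * (pol F (n + 1) - pol F n)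

lemma pol_monic (n : ℕ) : ((pol F n).Monic ∧ (pol F n).natDegree = n) ∧
    ((pol F (n + 1)).Monic ∧ (pol F (n + 1)).natDegree = n + 1) := by
  induction n with
  | zero =>
    refine ⟨⟨Polynomial.monic_one, Polynomial.natDegree_one⟩, ⟨Polynomial.monic_X, ?_⟩⟩
    exact Polynomial.natDegree_X
  | succ n ih =>
    refine ⟨ih.2, ?_⟩
    obtain ⟨⟨h1, h2⟩, h3, h4⟩ := ih
    have h5 : (pol F (n + 1) - pol F n).natDegree = n + 1 := by
      rw [Polynomial.natDegree_sub_eq_left_of_natDegree_lt (by omega), h4]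
    have h6 : (pol F (n + 1) - pol F n).Monic := by
      refine h3.sub_of_left ?_
      exact Polynomial.degree_lt_degree (by omega)
    have h7 : pol F (n + 1 + 1) = Polynomial.X * (pol F (n + 1) - pol F n) := rfl
    rw [h7]
    refine ⟨Polynomial.monic_X.mul h6, ?_⟩
    rw [Polynomial.monic_X.natDegree_mul h6, Polynomial.natDegree_X, h5]
    omega

lemma dl_rec {x : F} (h0 : x ≠ 0) (h1 : 1 - x ≠ 0) (n : ℕ) :
    dl 1 x * (pol F n).eval (uu x)⁻¹ = dl (n + 1) x ∧
    dl 1 x * (pol F (n + 1)).eval (uu x)⁻¹ = dl (n + 2) x := by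
  have ht1 : (uu x)⁻¹ = x⁻¹ * (1 - x)⁻¹ := by
    unfold uu; rw [mul_inv]
  have ht2 : x⁻¹ * (1 - x)⁻¹ = x⁻¹ + (1 - x)⁻¹ := by
    field_simp
    ring
  induction n with
  | zero =>
    refine ⟨?_, ?_⟩
    · change dl 1 x * (1 : Polynomial F).eval _ = _
      rw [Polynomial.eval_one, mul_one]
    · change dl 1 x * (Polynomial.X : Polynomial F).eval _ = _
      rw [Polynomial.eval_X, ht1, ht2]
      unfold dl
      ring
  | succ n ih =>
    refine ⟨ih.2, ?_⟩
    have h7 : pol F (n + 1 + 1) = Polynomial.X * (pol F (n + 1) - pol F n) := rfl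
    rw [h7, Polynomial.eval_mul, Polynomial.eval_sub, Polynomial.eval_X]
    have h8 : dl 1 x * ((uu x)⁻¹ * ((pol F (n + 1)).eval (uu x)⁻¹ - (pol F n).eval (uu x)⁻¹)) =
        (uu x)⁻¹ * (dl (n + 2) x - dl (n + 1) x) := by
      rw [← ih.1, ← ih.2]; ring
    rw [h8, ht1]
    unfold dl
    generalize x⁻¹ = a at *
    generalize (1 - x)⁻¹ = b at *
    have e1 : n + 1 + 2 = n + 3 := by omega
    rw [e1]
    linear_combination (a ^ (n + 2) - b ^ (n + 2)) * ht2

lemma prod_pairs {R : Type*} [CommRing R] {k : ℕ} (u : Fin k → R) :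
    (∏ p ∈ pairs k, (u p.1 * u p.2)) * ∏ i, u i = (∏ i, u i) ^ k := by
  have h1 : ∏ p ∈ pairs k, (u p.1 * u p.2) =
      (∏ i : Fin k, ∏ j : Fin k, if i < j then u i else 1) *
      ∏ i : Fin k, ∏ j : Fin k, if j < i then u i else 1 := by
    unfold pairs
    rw [Finset.prod_filter, ← Finset.univ_product_univ, Finset.prod_product]
    rw [Finset.prod_comm (f := fun i j : Fin k => if j < i then u i else 1),
      ← Finset.prod_mul_distrib]
    refine Finset.prod_congr rfl fun i _ => ?_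
    rw [← Finset.prod_mul_distrib]
    refine Finset.prod_congr rfl fun j _ => ?_
    split_ifs
    · rfl
    · rw [one_mul]
  rw [h1, ← Finset.prod_mul_distrib, ← Finset.prod_mul_distrib, ← Finset.prod_pow]
  refine Finset.prod_congr rfl fun i _ => ?_
  have h2 : u i = ∏ j : Fin k, if i = j then u i else 1 := by
    rw [Finset.prod_ite_eq]
    simp
  have h3 : u i ^ k = ∏ _j : Fin k, u i := by
    rw [Finset.prod_const, Finset.card_univ, Fintype.card_fin]
  rw [h3]
  nth_rewrite 3 [h2]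
  rw [← Finset.prod_mul_distrib, ← Finset.prod_mul_distrib]
  refine Finset.prod_congr rfl fun j _ => ?_
  rcases lt_trichotomy i j with h | h | h
  · rw [if_pos h, if_neg (not_lt.2 h.le), if_neg h.ne, mul_one, mul_one]
  · rw [if_neg (not_lt.2 h.ge), if_neg (not_lt.2 h.le), if_pos h, one_mul, one_mul]
  · rw [if_neg (not_lt.2 h.le), if_pos h, if_neg h.ne', one_mul, mul_one]

lemma db_div {k : ℕ} (X : Fin k → F) (h0 : ∀ i, X i ≠ 0) (h1 : ∀ i, 1 - X i ≠ 0) :
    db X / (∏ i, uu (X i)) ^ k =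
      ∑ τ : Equiv.Perm (Fin k), (Equiv.Perm.sign τ : ℤ) • ∏ i, dl (i.1 + 1) (X (τ i)) := by
  have hu : ∀ i, uu (X i) ≠ 0 := fun i => mul_ne_zero (h0 i) (h1 i)
  have hdet : (∏ i, dl 1 (X i)) * (Matrix.vandermonde fun i => (uu (X i))⁻¹).det =
      ∑ τ : Equiv.Perm (Fin k), (Equiv.Perm.sign τ : ℤ) • ∏ i, dl (i.1 + 1) (X (τ i)) := by
    rw [Matrix.det_eval_matrixOfPolynomials_eq_det_vandermonde _ (fun j => pol F j.1)
      (fun i => (pol_monic i.1).1.2) (fun i => (pol_monic i.1).1.1), ← Matrix.det_mul_column,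
      Matrix.det_apply]
    refine Finset.sum_congr rfl fun σ _ => ?_
    rw [Units.smul_def]
    congr 1
    refine Finset.prod_congr rfl fun i _ => ?_
    rw [Matrix.of_apply, Matrix.of_apply]
    exact (dl_rec (h0 _) (h1 _) _).1
  rw [← hdet, Matrix.det_vandermonde]
  have hv : ∏ i : Fin k, ∏ j ∈ Finset.Ioi i, ((uu (X j))⁻¹ - (uu (X i))⁻¹) =
      ∏ p ∈ pairs k, ((uu (X p.2))⁻¹ - (uu (X p.1))⁻¹) := by
    unfold pairs
    rw [Finset.prod_filter, ← Finset.univ_product_univ, Finset.prod_product]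
    refine Finset.prod_congr rfl fun i _ => ?_
    rw [← Finset.prod_filter]
    refine Finset.prod_congr ?_ fun j _ => rfl
    ext j
    simp
  rw [hv]
  have hp : ∏ p ∈ pairs k, ((uu (X p.2))⁻¹ - (uu (X p.1))⁻¹) =
      (∏ p ∈ pairs k, (X p.1 - X p.2) * (1 - X p.1 - X p.2)) /
        ∏ p ∈ pairs k, (uu (X p.1) * uu (X p.2)) := by
    rw [← Finset.prod_div_distrib]
    refine Finset.prod_congr rfl fun p _ => ?_
    have e1 := hu p.1
    have e2 := hu p.2
    field_simp
    unfold uu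
    ring
  have hd : ∏ i, dl 1 (X i) = (∏ i, (1 - 2 * X i)) / ∏ i, uu (X i) := by
    rw [← Finset.prod_div_distrib]
    refine Finset.prod_congr rfl fun i _ => ?_
    have e1 := h0 i
    have e2 := h1 i
    unfold dl uu
    rw [pow_one, pow_one]
    field_simp
    ring
  rw [hp, hd, div_mul_div_comm, mul_comm (∏ i, uu (X i)) (∏ p ∈ pairs k, _),
    prod_pairs (fun i => uu (X i))]
  rfl

end det

/-! ### the residue -/

lemma free_mul (h5 : S_XF) {k : ℕ} {j : Fin k} {f g : E k} (hf : Free j f) (hg : Free j g) :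
    Free j (f * g) := ((h5 k j).2.2.2.2.2.2.1 f g hf hg).2

lemma free_one (h5 : S_XF) {k : ℕ} (j : Fin k) : Free j (1 : E k) := by
  have h := (h5 k j).2.2.2.2.2.1 1
  rwa [map_one] at h

lemma free_sub (h5 : S_XF) {k : ℕ} {j : Fin k} {f g : E k} (hf : Free j f) (hg : Free j g) :
    Free j (f - g) := by
  rw [sub_eq_add_neg]
  exact ((h5 k j).2.2.2.2.2.2.1 f (-g) hf ((h5 k j).2.2.2.2.2.2.2 g hg).1).1

lemma free_inv (h5 : S_XF) {k : ℕ} {j : Fin k} {f : E k} (hf : Free j f) : Free j f⁻¹ :=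
  ((h5 k j).2.2.2.2.2.2.2 f hf).2

lemma free_pow (h5 : S_XF) {k : ℕ} {j : Fin k} {f : E k} (hf : Free j f) (n : ℕ) :
    Free j (f ^ n) := by
  induction n with
  | zero => rw [pow_zero]; exact free_one h5 j
  | succ n ih => rw [pow_succ]; exact free_mul h5 ih hf

lemma free_prod (h5 : S_XF) {k : ℕ} {j : Fin k} {ι : Type*} (s : Finset ι) (f : ι → E k)
    (h : ∀ i ∈ s, Free j (f i)) : Free j (∏ i ∈ s, f i) := by
  classical
  induction s using Finset.induction_on with
  | empty => rw [Finset.prod_empty]; exact free_one h5 j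
  | insert a s ha ih =>
    rw [Finset.prod_insert ha]
    exact free_mul h5 (h a (Finset.mem_insert_self _ _))
      (ih fun i hi => h i (Finset.mem_insert_of_mem hi))

lemma ge_pow (h3 : S_EH1) (h5 : S_XF) {k : ℕ} {j : Fin k} {f : E k} (hf : Ge j 0 f) (n : ℕ) :
    Ge j 0 (f ^ n) := by
  induction n with
  | zero => rw [pow_zero]; exact ge_one h5 j
  | succ n ih => rw [pow_succ]; exact ge_mul h3 j ih hf

/-- the residue as an additive map -/
noncomputable def rh (k : ℕ) : E k →+ ℚ where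
  toFun := res
  map_zero' := HahnSeries.coeff_zero
  map_add' f g := HahnSeries.coeff_add

lemma res_swap (h1 : S_EH1) (h2 : S_EH3) (h3 : S_XF) {k : ℕ} (m n : Fin k → ℕ) :
    res (∏ l, (dl (m l) (xx l : E k) * xx l ^ n l)) =
      res (∏ l, ((xx l : E k)⁻¹ ^ m l * xx l ^ n l)) := by
  classical
  have hfx : ∀ {l j : Fin k}, l ≠ j → Free j (xx l : E k) := fun {l j} h => (h3 k j).2.2.2.1 l h
  have key : ∀ s : Finset (Fin k),
      res ((∏ l ∈ s, (dl (m l) (xx l : E k) * xx l ^ n l)) *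
        ∏ l ∈ sᶜ, ((xx l : E k)⁻¹ ^ m l * xx l ^ n l)) =
      res (∏ l, ((xx l : E k)⁻¹ ^ m l * xx l ^ n l)) := by
    intro s
    induction s using Finset.induction_on with
    | empty => rw [Finset.prod_empty, one_mul, Finset.compl_empty]
    | insert a s ha ih =>
      have hc : sᶜ = insert a (insert a s)ᶜ := by
        ext l
        simp only [Finset.mem_compl, Finset.mem_insert]
        by_cases h : l = a
        · subst h; simp [ha]
        · simp [h]
      have hna : a ∉ (insert a s)ᶜ := by simp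
      rw [hc, Finset.prod_insert hna] at ih
      rw [Finset.prod_insert ha]
      set A := ∏ l ∈ s, (dl (m l) (xx l : E k) * xx l ^ n l) with hA
      set B := ∏ l ∈ (insert a s)ᶜ, ((xx l : E k)⁻¹ ^ m l * xx l ^ n l) with hB
      have hfA : Free a A := by
        refine free_prod h3 _ _ fun l hl => ?_
        have hla : l ≠ a := fun h => ha (h ▸ hl)
        refine free_mul h3 (free_sub h3 (free_pow h3 (free_inv h3 (hfx hla)) _)
          (free_pow h3 (free_inv h3 (free_sub h3 (free_one h3 a) (hfx hla))) _))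
          (free_pow h3 (hfx hla) _)
      have hfB : Free a B := by
        refine free_prod h3 _ _ fun l hl => ?_
        have hla : l ≠ a := by
          rintro rfl
          exact hna hl
        exact free_mul h3 (free_pow h3 (free_inv h3 (hfx hla)) _) (free_pow h3 (hfx hla) _)
      have hr : res ((1 - xx a : E k)⁻¹ ^ m a * xx a ^ n a * (A * B)) = 0 := by
        refine (h2 k).2.2.1 a _ ?_
        refine ge_mul h1 a (ge_mul h1 a (ge_pow h1 h3 (ge_inv1 h3 a a) _)
          (ge_pow h1 h3 (ge_xx h3 a a) _)) (free_mul h3 hfA hfB).1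
      have he : dl (m a) (xx a : E k) * xx a ^ n a * A * B =
          A * ((xx a : E k)⁻¹ ^ m a * xx a ^ n a * B) +
            -((1 - xx a : E k)⁻¹ ^ m a * xx a ^ n a * (A * B)) := by
        unfold dl
        ring
      rw [he]
      have hadd := (rh k).map_add (A * ((xx a : E k)⁻¹ ^ m a * xx a ^ n a * B))
        (-((1 - xx a : E k)⁻¹ ^ m a * xx a ^ n a * (A * B)))
      have hneg := (rh k).map_neg ((1 - xx a : E k)⁻¹ ^ m a * xx a ^ n a * (A * B))
      rw [hneg] at hadd
      refine hadd.trans ?_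
      change res (A * ((xx a : E k)⁻¹ ^ m a * xx a ^ n a * B)) +
        -res ((1 - xx a : E k)⁻¹ ^ m a * xx a ^ n a * (A * B)) = _
      rw [hr, ih, neg_zero, add_zero]
  have h := key Finset.univ
  rwa [Finset.compl_univ, Finset.prod_empty, mul_one] at h

lemma res_mono {k : ℕ} (m n : Fin k → ℕ) :
    res (∏ l, ((xx l : E k)⁻¹ ^ (m l + 1) * xx l ^ n l)) = if m = n then 1 else 0 := by
  classical
  have h1 : ∀ l : Fin k, (xx l : E k)⁻¹ ^ (m l + 1) * xx l ^ n l =
      HahnSeries.single ((m l + 1) • (-toLex (Pi.single l (1 : ℤ))) +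
        n l • toLex (Pi.single l (1 : ℤ))) (1 : ℚ) := by
    intro l
    unfold xx
    rw [HahnSeries.inv_single, HahnSeries.single_pow, HahnSeries.single_pow,
      HahnSeries.single_mul_single, inv_one, one_pow, one_pow, mul_one]
  rw [Finset.prod_congr rfl fun l _ => h1 l, prod_single]
  have hco : ∀ i : Fin k, ofLex (∑ l : Fin k, ((m l + 1) • (-toLex (Pi.single l (1 : ℤ))) +
        n l • toLex (Pi.single l (1 : ℤ))) : Ex k) i = (n i : ℤ) - (m i + 1) := by
    intro i
    rw [ofLex_sum]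
    have h2 : ∀ l : Fin k, ofLex ((m l + 1) • (-toLex (Pi.single l (1 : ℤ))) +
        n l • toLex (Pi.single l (1 : ℤ)) : Ex k) i =
        ((n l : ℤ) - (m l + 1)) * (Pi.single l (1 : ℤ) : Fin k → ℤ) i := by
      intro l
      have h3 : ofLex ((m l + 1) • (-toLex (Pi.single l (1 : ℤ))) +
        n l • toLex (Pi.single l (1 : ℤ)) : Ex k) i =
        (m l + 1) • (-(Pi.single l (1 : ℤ) : Fin k → ℤ) i) +
          n l • (Pi.single l (1 : ℤ) : Fin k → ℤ) i := rfl
      rw [h3, nsmul_eq_mul, nsmul_eq_mul]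
      push_cast
      ring
    rw [Finset.sum_congr rfl fun l _ => h2 l, Finset.sum_eq_single i]
    · rw [Pi.single_eq_same, mul_one]
    · intro l _ hl
      rw [Pi.single_eq_of_ne hl.symm, mul_zero]
    · intro h; exact absurd (Finset.mem_univ _) h
  unfold res
  split_ifs with hmn
  · have h4 : (∑ l : Fin k, ((m l + 1) • (-toLex (Pi.single l (1 : ℤ))) +
        n l • toLex (Pi.single l (1 : ℤ))) : Ex k) = toLex fun _ => -1 := by
      apply ofLex.injective
      funext i
      rw [hco i, hmn]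
      change (n i : ℤ) - (n i + 1) = -1
      ring
    rw [h4, HahnSeries.coeff_single_same]
  · refine HahnSeries.coeff_single_of_ne ?_
    intro h
    refine hmn (funext fun i => ?_)
    have h5 := hco i
    rw [← h] at h5
    change (-1 : ℤ) = _ at h5
    omega

theorem mc (h1 : S_EH1) (h2 : S_EH3) (h3 : S_XF) : Pool.Agent.H174.GM.S_MC := by
  classical
  intro k
  have hx0 : ∀ i : Fin k, (xx i : E k) ≠ 0 := by
    intro i
    unfold xx
    exact HahnSeries.single_ne_zero one_ne_zero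
  have hx1 : ∀ i : Fin k, (1 - xx i : E k) ≠ 0 := by
    intro i h
    have h6 := ((h3 k i).2.2.2.2.1 i).1.1
    rw [h] at h6
    exact h6 HahnSeries.coeff_zero
  unfold mres
  rw [zero_add, mul_div_right_comm, db_div _ hx0 hx1]
  unfold vv
  rw [Finset.sum_mul_sum]
  have hterm : ∀ τ σ : Equiv.Perm (Fin k),
      res (((Equiv.Perm.sign τ : ℤ) • ∏ i, dl (i.1 + 1) (xx (τ i) : E k)) *
        ((Equiv.Perm.sign σ : ℤ) • ∏ i, xx (σ i) ^ i.1)) = if σ = τ then 1 else 0 := by
    intro τ σ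
    have e1 : ∏ i, dl (i.1 + 1) (xx (τ i) : E k) = ∏ l, dl ((τ.symm l).1 + 1) (xx l : E k) := by
      rw [← Equiv.prod_comp τ (fun l => dl ((τ.symm l).1 + 1) (xx l : E k))]
      refine Finset.prod_congr rfl fun i _ => ?_
      change _ = dl ((τ.symm (τ i)).1 + 1) (xx (τ i) : E k)
      rw [Equiv.symm_apply_apply]
    have e2 : ∏ i, (xx (σ i) : E k) ^ i.1 = ∏ l, (xx l : E k) ^ (σ.symm l).1 := by
      rw [← Equiv.prod_comp σ (fun l => (xx l : E k) ^ (σ.symm l).1)]
      refine Finset.prod_congr rfl fun i _ => ?_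
      change _ = (xx (σ i) : E k) ^ (σ.symm (σ i)).1
      rw [Equiv.symm_apply_apply]
    rw [e1, e2, smul_mul_smul_comm, ← Finset.prod_mul_distrib]
    have h7 := map_zsmul (rh k) ((Equiv.Perm.sign τ : ℤ) * (Equiv.Perm.sign σ : ℤ))
      (∏ l, (dl ((τ.symm l).1 + 1) (xx l : E k) * xx l ^ (σ.symm l).1))
    refine h7.trans ?_
    change ((Equiv.Perm.sign τ : ℤ) * (Equiv.Perm.sign σ : ℤ)) •
      res (∏ l, (dl ((τ.symm l).1 + 1) (xx l : E k) * xx l ^ (σ.symm l).1)) = _
    rw [res_swap h1 h2 h3 (fun l => (τ.symm l).1 + 1) (fun l => (σ.symm l).1),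
      res_mono (fun l => (τ.symm l).1) (fun l => (σ.symm l).1)]
    by_cases h : σ = τ
    · subst h
      rw [if_pos rfl, if_pos rfl]
      have h8 : ((Equiv.Perm.sign σ : ℤ) * (Equiv.Perm.sign σ : ℤ)) = 1 := by
        rcases Int.units_eq_one_or (Equiv.Perm.sign σ) with h9 | h9 <;> rw [h9] <;> norm_num
      rw [h8, one_smul]
    · rw [if_neg h, if_neg, smul_zero]
      intro h9
      apply h
      have h10 : τ.symm = σ.symm := by
        ext l
        exact congrFun h9 l
      exact (Equiv.symm_bijective.injective h10).symm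
  have hsum := map_sum (rh k) (fun τ : Equiv.Perm (Fin k) => ∑ σ : Equiv.Perm (Fin k),
    (((Equiv.Perm.sign τ : ℤ) • ∏ i, dl (i.1 + 1) (xx (τ i) : E k)) *
        ((Equiv.Perm.sign σ : ℤ) • ∏ i, xx (σ i) ^ i.1))) Finset.univ
  refine hsum.trans ?_
  have hin : ∀ τ : Equiv.Perm (Fin k), (rh k) (∑ σ : Equiv.Perm (Fin k),
    (((Equiv.Perm.sign τ : ℤ) • ∏ i, dl (i.1 + 1) (xx (τ i) : E k)) *
        ((Equiv.Perm.sign σ : ℤ) • ∏ i, xx (σ i) ^ i.1))) = 1 := by
    intro τ
    rw [map_sum]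
    refine (Finset.sum_congr rfl fun σ _ => hterm τ σ).trans ?_
    rw [Finset.sum_ite_eq']
    simp
  rw [Finset.sum_congr rfl fun τ _ => hin τ, Finset.sum_const, Finset.card_univ,
    Fintype.card_perm, Fintype.card_fin, nsmul_eq_mul, mul_one]

end Pool.Agent.H946.GM
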