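import Pool.Agent.H946.GM174.Base

/-!
# Task TF of project GM (helper174), written by helper946
-/

set_option autoImplicit false

namespace Pool.Agent.H946.GM

open Pool.Agent.H174.GM Finset

theorem tf : Pool.Agent.H174.GM.S_TF := by
  intro k σ ε j q hjq
  obtain ⟨a, rfl⟩ := σ.surjective j
  obtain ⟨b, rfl⟩ := σ.surjective q
  have hab : a ≠ b := fun h => hjq (by rw [h])
  have hk := card_oth hab
  have ha := a.isLt
  have hb := b.isLt
  have hX := X_mem_CS (σ a) (σ b)
  have h1 := one_mem (CS (σ a) (σ b))
  have hyx : ∀ {K : Type} [Field K] (x y : K), x * y = 1 → y ≠ 0 ∧ x = y⁻¹ := by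
    intro K _ x y h
    exact ⟨right_ne_zero_of_mul_eq_one h, eq_inv_of_mul_eq_one_left h⟩
  rcases lt_or_gt_of_ne hab with h | h
  · have hlt : a.1 < b.1 := h
    cases hε : ε (σ b)
    · have hT : (if ε (σ a) then Polynomial.X - 1 else 1 :
          Polynomial (MvPolynomial (Fin k) ℚ)).natDegree ≤ 1 := by
        split_ifs
        · compute_degree
        · rw [Polynomial.natDegree_one]; exact Nat.zero_le _
      have h3 : (Polynomial.X ^ 3 - (1 - Polynomial.X) ^ 3 :
          Polynomial (MvPolynomial (Fin k) ℚ)).natDegree ≤ 3 := by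
        compute_degree
      obtain ⟨Q, hQ1, hQ2, hQ3⟩ := main σ ε (st k) hab (Or.inl ⟨h, hε⟩) (n := k + 1)
        (d := 2 * k + 2)
        (P := Polynomial.X ^ (k + b.1 - a.1 - 1) * (Polynomial.X ^ 3 - (1 - Polynomial.X) ^ 3) *
          (if ε (σ a) then Polynomial.X - 1 else 1) ^ (a.1 + 1)) (by
            refine (Polynomial.natDegree_mul_le_of_le (Polynomial.natDegree_mul_le_of_le
              (Polynomial.natDegree_X_pow_le _) h3)
              (Polynomial.natDegree_pow_le_of_le (a.1 + 1) hT)).trans ?_
            omega) (by
            refine mul_mem (mul_mem (pow_mem hX _) (sub_mem (pow_mem hX 3)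
              (pow_mem (sub_mem h1 hX) 3))) (pow_mem ?_ _)
            split_ifs
            · exact sub_mem hX h1
            · exact h1) (by
            intro K _ _ X hXX
            obtain ⟨hy, hx⟩ := hyx _ _ hXX
            have hY : (flp ε X ∘ σ) a * X (σ b) =
                evh X (X (σ b)) (if ε (σ a) then Polynomial.X - 1 else 1) := by
              simp only [Function.comp, flp]
              split_ifs
              · rw [map_sub, map_one, evh_X, sub_mul, hXX, one_mul]
              · rw [map_one, hXX]
            have hYb : (flp ε X ∘ σ) b = X (σ b) := by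
              simp [Function.comp, flp, hε]
            have hm : MM (fun i i' => mm (uu ((flp ε X ∘ σ) i)) ((flp ε X ∘ σ) i')) b a *
                X (σ b) ^ 2 = X (σ b) ^ 3 - (1 - X (σ b)) ^ 3 := by
              have hua : uu ((flp ε X ∘ σ) a) = uu (X (σ a)) := uu_flp ε X (σ a)
              simp only [MM, if_neg (not_lt.2 h.le)]
              rw [hua, hYb, hx]
              simp only [mm, uu]
              field_simp
              ring
            have hpow : X (σ b) ^ (k + 1) * X (σ b) ^ (b.1 + 1) =
                X (σ b) ^ (k + b.1 - a.1 - 1) * X (σ b) ^ 2 * X (σ b) ^ (a.1 + 1) := by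
              rw [← pow_add, ← pow_add, ← pow_add]
              congr 1
              omega
            rw [map_mul, map_mul, map_pow, map_pow, map_sub, map_pow, map_pow, map_sub, map_one,
              evh_X, ← hY, mul_pow, hYb, ← hm]
            change X (σ b) ^ (k + 1) * ((flp ε X ∘ σ) a ^ (a.1 + 1) * X (σ b) ^ (b.1 + 1) * _) = _
            linear_combination ((flp ε X ∘ σ) a ^ (a.1 + 1) *
              MM (fun i i' => mm (uu ((flp ε X ∘ σ) i)) ((flp ε X ∘ σ) i')) b a) * hpow)
      refine ⟨Q, by omega, hQ2, ?_⟩
      intro K _ _ X hXX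
      have h4 := hQ3 K X hXX
      rwa [show k + 1 + (k - 2) = 2 * k - 1 by omega] at h4
    · refine ⟨0, by simp, fun n => by simp, ?_⟩
      intro K _ _ X hXX
      obtain ⟨hy, hx⟩ := hyx _ _ hXX
      have hm : MM (fun i i' => mm (uu ((flp ε X ∘ σ) i)) ((flp ε X ∘ σ) i')) b a = 0 := by
        have hua : uu ((flp ε X ∘ σ) a) = uu (X (σ a)) := uu_flp ε X (σ a)
        have hYb : (flp ε X ∘ σ) b = 1 - X (σ b) := by
          simp [Function.comp, flp, hε]
        simp only [MM, if_neg (not_lt.2 h.le)]
        rw [hua, hYb, hx]
        simp only [mm, uu]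
        field_simp
        ring
      rw [ff_split (st k) _ hab, hm]
      simp
  · have hlt : b.1 < a.1 := h
    cases hε : ε (σ a)
    · have hT : (if ε (σ b) then 1 - Polynomial.X else Polynomial.X :
          Polynomial (MvPolynomial (Fin k) ℚ)).natDegree ≤ 1 := by
        split_ifs
        · compute_degree
        · exact Polynomial.natDegree_X_le
      have h3 : (1 + (1 - Polynomial.X) ^ 3 :
          Polynomial (MvPolynomial (Fin k) ℚ)).natDegree ≤ 3 := by
        compute_degree
      obtain ⟨Q, hQ1, hQ2, hQ3⟩ := main σ ε (st k) hab (Or.inr ⟨h, hε⟩) (n := k + 1)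
        (d := 2 * k + 2)
        (P := Polynomial.X ^ (k - a.1 - 1) * (1 + (1 - Polynomial.X) ^ 3) *
          (if ε (σ b) then 1 - Polynomial.X else Polynomial.X) ^ (b.1 + 1)) (by
            refine (Polynomial.natDegree_mul_le_of_le (Polynomial.natDegree_mul_le_of_le
              (Polynomial.natDegree_X_pow_le _) h3)
              (Polynomial.natDegree_pow_le_of_le (b.1 + 1) hT)).trans ?_
            omega) (by
            refine mul_mem (mul_mem (pow_mem hX _) (add_mem h1
              (pow_mem (sub_mem h1 hX) 3))) (pow_mem ?_ _)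
            split_ifs
            · exact sub_mem h1 hX
            · exact hX) (by
            intro K _ _ X hXX
            obtain ⟨hy, hx⟩ := hyx _ _ hXX
            have hY : (flp ε X ∘ σ) b =
                evh X (X (σ b)) (if ε (σ b) then 1 - Polynomial.X else Polynomial.X) := by
              simp only [Function.comp, flp]
              split_ifs
              · rw [map_sub, map_one, evh_X]
              · rw [evh_X]
            have hYa : (flp ε X ∘ σ) a = X (σ a) := by
              simp [Function.comp, flp, hε]
            have hm : MM (fun i i' => mm (uu ((flp ε X ∘ σ) i)) ((flp ε X ∘ σ) i')) b a *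
                X (σ b) = 1 + (1 - X (σ b)) ^ 3 := by
              have hub : uu ((flp ε X ∘ σ) b) = uu (X (σ b)) := uu_flp ε X (σ b)
              simp only [MM, if_pos h]
              rw [hub, hYa, hx]
              simp only [mm, uu]
              field_simp
              ring
            have hpow : X (σ b) ^ (k + 1) * X (σ a) ^ (a.1 + 1) =
                X (σ b) ^ (k - a.1 - 1) * X (σ b) := by
              have h5 : X (σ b) ^ (k + 1) =
                  X (σ b) ^ (k - a.1 - 1) * X (σ b) * X (σ b) ^ (a.1 + 1) := by
                rw [← pow_succ, ← pow_add]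
                congr 1
                omega
              rw [h5, mul_assoc, ← mul_pow, mul_comm (X (σ b)) (X (σ a)), hXX, one_pow, mul_one]
            rw [map_mul, map_mul, map_pow, map_pow, map_add, map_pow, map_sub, map_one,
              evh_X, ← hY, hYa, ← hm]
            change X (σ b) ^ (k + 1) * (X (σ a) ^ (a.1 + 1) * (flp ε X ∘ σ) b ^ (b.1 + 1) * _) = _
            linear_combination ((flp ε X ∘ σ) b ^ (b.1 + 1) *
              MM (fun i i' => mm (uu ((flp ε X ∘ σ) i)) ((flp ε X ∘ σ) i')) b a) * hpow)
      refine ⟨Q, by omega, hQ2, ?_⟩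
      intro K _ _ X hXX
      have h4 := hQ3 K X hXX
      rwa [show k + 1 + (k - 2) = 2 * k - 1 by omega] at h4
    · refine ⟨0, by simp, fun n => by simp, ?_⟩
      intro K _ _ X hXX
      obtain ⟨hy, hx⟩ := hyx _ _ hXX
      have hm : MM (fun i i' => mm (uu ((flp ε X ∘ σ) i)) ((flp ε X ∘ σ) i')) b a = 0 := by
        have hub : uu ((flp ε X ∘ σ) b) = uu (X (σ b)) := uu_flp ε X (σ b)
        have hYa : (flp ε X ∘ σ) a = 1 - X (σ a) := by
          simp [Function.comp, flp, hε]
        simp only [MM, if_pos h]
        rw [hub, hYa, hx]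
        simp only [mm, uu]
        field_simp
        ring
      rw [ff_split (st k) _ hab, hm]
      simp

end Pool.Agent.H946.GM
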