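import Pool.Agent.H946.GM174.Base

/-!
# Task TR of project GM (helper174), written by helper946
-/

set_option autoImplicit false

namespace Pool.Agent.H946.GM

open Pool.Agent.H174.GM Finset

theorem tr : Pool.Agent.H174.GM.S_TR := by
  intro k hk0 σ e j q hjq hj he0 heq
  subst hj
  obtain ⟨b, rfl⟩ := σ.surjective q
  rw [Equiv.symm_apply_apply] at heq
  have hab : (⟨0, hk0⟩ : Fin k) ≠ b := fun h => hjq (by rw [h])
  have hk := card_oth hab
  have hb := b.isLt
  have h : (⟨0, hk0⟩ : Fin k) < b := by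
    refine lt_of_le_of_ne ?_ hab
    exact Fin.mk_le_of_le_val (Nat.zero_le _)
  have hX := X_mem_CS (σ ⟨0, hk0⟩) (σ b)
  have h1 := one_mem (CS (σ ⟨0, hk0⟩) (σ b))
  have hyx : ∀ {K : Type} [Field K] (x y : K), x * y = 1 → y ≠ 0 ∧ x = y⁻¹ := by
    intro K _ x y h
    exact ⟨right_ne_zero_of_mul_eq_one h, eq_inv_of_mul_eq_one_left h⟩
  have hfl : ∀ {K : Type} [Field K] (X : Fin k → K), flp (fun _ => false) X = X := by
    intro K _ X
    funext i
    simp [flp]
  obtain ⟨Q, hQ1, hQ2, hQ3⟩ := main σ (fun _ => false) e hab (Or.inl ⟨h, rfl⟩) (n := 1)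
    (P := Polynomial.X ^ (e b - 1) * (Polynomial.X ^ 3 - (1 - Polynomial.X) ^ 3)) le_rfl (by
        exact mul_mem (pow_mem hX _) (sub_mem (pow_mem hX 3) (pow_mem (sub_mem h1 hX) 3))) (by
        intro K _ _ X hXX
        obtain ⟨hy, hx⟩ := hyx _ _ hXX
        rw [hfl X]
        have hm : MM (fun i i' => mm (uu ((X ∘ σ) i)) ((X ∘ σ) i')) b ⟨0, hk0⟩ *
            X (σ b) ^ 2 = X (σ b) ^ 3 - (1 - X (σ b)) ^ 3 := by
          simp only [MM, if_neg (not_lt.2 h.le), Function.comp]
          rw [hx]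
          simp only [mm, uu]
          field_simp
          ring
        have hpow : X (σ b) * X (σ b) ^ e b = X (σ b) ^ (e b - 1) * X (σ b) ^ 2 := by
          rw [← pow_succ', ← pow_add]
          congr 1
          omega
        rw [map_mul, map_pow, map_sub, map_pow, map_pow, map_sub, map_one, evh_X, ← hm, he0,
          pow_zero, one_mul, pow_one]
        change X (σ b) * (X (σ b) ^ e b * _) = _
        linear_combination (MM (fun i i' => mm (uu ((X ∘ σ) i)) ((X ∘ σ) i')) b ⟨0, hk0⟩) * hpow)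
  refine ⟨Q, hQ2, ?_⟩
  intro K _ _ X hXX
  have h4 := hQ3 K X hXX
  rwa [show 1 + (k - 2) = k - 1 by omega, hfl X] at h4

end Pool.Agent.H946.GM
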