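import Pool.Agent.H174.GM.Stmts

/-!
# Common part of the tasks TF and TR of project GM (helper174), written by helper946
-/

set_option autoImplicit false

namespace Pool.Agent.H946.GM

open Pool.Agent.H174.GM Finset

section comb
variable {R : Type*} [CommRing R] {k : ℕ}

/-- product over the pairs inside a set -/
def PP (g : Fin k → Fin k → R) (s : Finset (Fin k)) : R :=
  ∏ i ∈ s, ∏ i' ∈ s, if i < i' then g i i' else 1

/-- value of an unordered pair -/
def MM (g : Fin k → Fin k → R) (i i' : Fin k) : R := if i < i' then g i i' else g i' i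

lemma PP_insert (g : Fin k → Fin k → R) (a : Fin k) (s : Finset (Fin k)) (ha : a ∉ s) :
    PP g (insert a s) = (∏ i ∈ s, MM g i a) * PP g s := by
  unfold PP
  rw [Finset.prod_insert ha, Finset.prod_insert ha]
  have h1 : ∏ i ∈ s, ∏ i' ∈ insert a s, (if i < i' then g i i' else 1)
      = (∏ i ∈ s, if i < a then g i a else 1) *
        ∏ i ∈ s, ∏ i' ∈ s, (if i < i' then g i i' else 1) := by
    rw [← Finset.prod_mul_distrib]
    exact Finset.prod_congr rfl fun i _ => Finset.prod_insert ha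
  rw [h1, if_neg (lt_irrefl a), one_mul, ← mul_assoc, ← Finset.prod_mul_distrib]
  congr 1
  refine Finset.prod_congr rfl fun i hi => ?_
  unfold MM
  have hne : i ≠ a := fun h => ha (h ▸ hi)
  rcases lt_or_gt_of_ne hne with h | h
  · rw [if_pos h, if_pos h, if_neg (not_lt.2 h.le), one_mul]
  · rw [if_pos h, if_neg (not_lt.2 h.le), if_neg (not_lt.2 h.le), mul_one]

lemma cc_eq (Y : Fin k → R) : cc Y = PP (fun i i' => mm (uu (Y i)) (Y i')) univ := by
  unfold cc PP pairs
  rw [Finset.prod_filter, ← Finset.univ_product_univ, Finset.prod_product]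

/-- the positions different from `a` and `b` -/
def oth (a b : Fin k) : Finset (Fin k) := univ.filter fun i => i ≠ a ∧ i ≠ b

lemma mem_oth {a b i : Fin k} : i ∈ oth a b ↔ i ≠ a ∧ i ≠ b := by simp [oth]

lemma univ_eq {a b : Fin k} : (univ : Finset (Fin k)) = insert a (insert b (oth a b)) := by
  ext i
  simp only [mem_univ, mem_insert, mem_oth, true_iff]
  tauto

lemma a_nmem {a b : Fin k} (hab : a ≠ b) : a ∉ insert b (oth a b) := by
  simp [mem_oth, hab]

lemma b_nmem {a b : Fin k} : b ∉ oth a b := by simp [mem_oth]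

lemma card_oth {a b : Fin k} (hab : a ≠ b) : (oth a b).card + 2 = k := by
  have h := congrArg Finset.card (univ_eq (a := a) (b := b))
  rw [Finset.card_insert_of_notMem (a_nmem hab), Finset.card_insert_of_notMem b_nmem,
    Finset.card_univ, Fintype.card_fin] at h
  omega

lemma ff_split (e : Fin k → ℕ) (Y : Fin k → R) {a b : Fin k} (hab : a ≠ b) :
    ff e Y = (Y a ^ e a * Y b ^ e b * MM (fun i i' => mm (uu (Y i)) (Y i')) b a) *
      (∏ i ∈ oth a b, (MM (fun i i' => mm (uu (Y i)) (Y i')) i a *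
        MM (fun i i' => mm (uu (Y i)) (Y i')) i b)) *
      ((∏ i ∈ oth a b, Y i ^ e i) * PP (fun i i' => mm (uu (Y i)) (Y i')) (oth a b)) := by
  unfold ff
  rw [cc_eq, univ_eq (a := a) (b := b), Finset.prod_insert (a_nmem hab), Finset.prod_insert b_nmem,
    PP_insert _ _ _ (a_nmem hab), PP_insert _ _ _ b_nmem, Finset.prod_insert b_nmem,
    Finset.prod_mul_distrib]
  ring

lemma uu_one_sub (x : R) : uu (1 - x) = uu x := by
  unfold uu; ring

lemma uu_flp (ε : Fin k → Bool) (X : Fin k → R) (i : Fin k) : uu (flp ε X i) = uu (X i) := by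
  unfold flp
  split_ifs
  · exact uu_one_sub _
  · rfl

lemma prod_oth (σ : Equiv.Perm (Fin k)) {a b j q : Fin k} (ha : σ a = j) (hb : σ b = q)
    (W : Fin k → R) :
    ∏ r ∈ univ.filter (fun r => r ≠ j ∧ r ≠ q), W r = ∏ i ∈ oth a b, W (σ i) := by
  symm
  refine Finset.prod_equiv σ (fun i => ?_) fun i _ => rfl
  rw [mem_oth, mem_filter]
  subst ha hb
  simp

end comb

/-! ### polynomials not involving `j` and `q` -/

variable {k : ℕ}

/-- polynomials not involving `j` and `q` -/
def Sb (j q : Fin k) : Subring (MvPolynomial (Fin k) ℚ) where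
  carrier := {p | p.degreeOf j = 0 ∧ p.degreeOf q = 0}
  mul_mem' := by
    rintro p p' ⟨h1, h2⟩ ⟨h3, h4⟩
    exact ⟨Nat.le_zero.1 ((MvPolynomial.degreeOf_mul_le _ _ _).trans (by rw [h1, h3])),
      Nat.le_zero.1 ((MvPolynomial.degreeOf_mul_le _ _ _).trans (by rw [h2, h4]))⟩
  one_mem' := ⟨MvPolynomial.degreeOf_one _, MvPolynomial.degreeOf_one _⟩
  add_mem' := by
    rintro p p' ⟨h1, h2⟩ ⟨h3, h4⟩
    exact ⟨Nat.le_zero.1 ((MvPolynomial.degreeOf_add_le _ _ _).trans (by rw [h1, h3, max_self])),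
      Nat.le_zero.1 ((MvPolynomial.degreeOf_add_le _ _ _).trans (by rw [h2, h4, max_self]))⟩
  zero_mem' := ⟨MvPolynomial.degreeOf_zero _, MvPolynomial.degreeOf_zero _⟩
  neg_mem' := by
    rintro p ⟨h1, h2⟩
    have h : ∀ i, (-p).degreeOf i ≤ p.degreeOf i := by
      intro i
      have h3 : -p = MvPolynomial.C (-1) * p := by simp
      rw [h3]
      exact MvPolynomial.degreeOf_C_mul_le _ _ _
    exact ⟨Nat.le_zero.1 ((h j).trans h1.le), Nat.le_zero.1 ((h q).trans h2.le)⟩

lemma X_mem_Sb {j q r : Fin k} (h1 : r ≠ j) (h2 : r ≠ q) :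
    (MvPolynomial.X r : MvPolynomial (Fin k) ℚ) ∈ Sb j q := by
  constructor
  · rw [MvPolynomial.degreeOf_X, if_neg h1.symm]
  · rw [MvPolynomial.degreeOf_X, if_neg h2.symm]

/-- polynomials with coefficients in `Sb` -/
def CS (j q : Fin k) : Subring (Polynomial (MvPolynomial (Fin k) ℚ)) where
  carrier := {Q | ∀ n, Q.coeff n ∈ Sb j q}
  mul_mem' := by
    intro Q Q' h h' n
    rw [Polynomial.coeff_mul]
    exact sum_mem fun x _ => mul_mem (h _) (h' _)
  one_mem' := by
    intro n
    rw [Polynomial.coeff_one]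
    split_ifs
    · exact one_mem _
    · exact zero_mem _
  add_mem' := by
    intro Q Q' h h' n
    rw [Polynomial.coeff_add]
    exact add_mem (h _) (h' _)
  zero_mem' := by
    intro n
    rw [Polynomial.coeff_zero]
    exact zero_mem _
  neg_mem' := by
    intro Q h n
    rw [Polynomial.coeff_neg]
    exact neg_mem (h _)

lemma X_mem_CS (j q : Fin k) : (Polynomial.X : Polynomial (MvPolynomial (Fin k) ℚ)) ∈ CS j q := by
  intro n
  rw [Polynomial.coeff_X]
  split_ifs
  · exact one_mem _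
  · exact zero_mem _

lemma C_mem_CS {j q : Fin k} {p : MvPolynomial (Fin k) ℚ} (hp : p ∈ Sb j q) :
    (Polynomial.C p : Polynomial (MvPolynomial (Fin k) ℚ)) ∈ CS j q := by
  intro n
  rw [Polynomial.coeff_C]
  split_ifs
  · exact hp
  · exact zero_mem _

/-- evaluation -/
noncomputable def evh {K : Type} [Field K] [Algebra ℚ K] (X : Fin k → K) (y : K) :
    Polynomial (MvPolynomial (Fin k) ℚ) →+* K :=
  Polynomial.eval₂RingHom (MvPolynomial.aeval X).toRingHom y

lemma evh_eq {K : Type} [Field K] [Algebra ℚ K] (X : Fin k → K) (y : K)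
    (Q : Polynomial (MvPolynomial (Fin k) ℚ)) :
    (Q.map (MvPolynomial.aeval X).toRingHom).eval y = evh X y Q := by
  rw [Polynomial.eval_map]
  rfl

lemma evh_X {K : Type} [Field K] [Algebra ℚ K] (X : Fin k → K) (y : K) :
    evh X y Polynomial.X = y := by
  simp [evh]

lemma evh_C {K : Type} [Field K] [Algebra ℚ K] (X : Fin k → K) (y : K)
    (p : MvPolynomial (Fin k) ℚ) : evh X y (Polynomial.C p) = MvPolynomial.aeval X p := by
  simp [evh]

/-- the polynomial variables at the positions -/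
noncomputable def Yp (σ : Equiv.Perm (Fin k)) (ε : Fin k → Bool) (i : Fin k) :
    MvPolynomial (Fin k) ℚ :=
  (flp ε (fun r => (MvPolynomial.X r : MvPolynomial (Fin k) ℚ)) ∘ σ) i

lemma aeval_Yp {K : Type} [Field K] [Algebra ℚ K] (X : Fin k → K) (σ : Equiv.Perm (Fin k))
    (ε : Fin k → Bool) (i : Fin k) :
    MvPolynomial.aeval X (Yp σ ε i) = (flp ε X ∘ σ) i := by
  unfold Yp flp
  simp only [Function.comp]
  split_ifs <;> simp

lemma Yp_mem {σ : Equiv.Perm (Fin k)} {ε : Fin k → Bool} {a b i j q : Fin k} (ha : σ a = j)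
    (hb : σ b = q) (hi : i ∈ oth a b) : Yp σ ε i ∈ Sb j q := by
  rw [mem_oth] at hi
  have h1 : σ i ≠ j := fun h => hi.1 (σ.injective (h.trans ha.symm))
  have h2 : σ i ≠ q := fun h => hi.2 (σ.injective (h.trans hb.symm))
  unfold Yp flp
  simp only [Function.comp]
  split_ifs
  · exact sub_mem (one_mem _) (X_mem_Sb h1 h2)
  · exact X_mem_Sb h1 h2

lemma uu_mem {j q : Fin k} {p : MvPolynomial (Fin k) ℚ} (hp : p ∈ Sb j q) : uu p ∈ Sb j q :=
  mul_mem hp (sub_mem (one_mem _) hp)

lemma mm_mem {j q : Fin k} {p p' : MvPolynomial (Fin k) ℚ} (hp : p ∈ Sb j q) (hp' : p' ∈ Sb j q) :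
    mm p p' ∈ Sb j q :=
  add_mem hp' (mul_mem hp (pow_mem (sub_mem (one_mem _) hp') 2))

lemma map_uu {A B : Type*} [CommRing A] [CommRing B] (f : A →+* B) (x : A) :
    f (uu x) = uu (f x) := by
  simp [uu]

lemma map_mm {A B : Type*} [CommRing A] [CommRing B] (f : A →+* B) (x y : A) :
    f (mm x y) = mm (f x) (f y) := by
  simp [mm]

/-- the part of the other variables -/
noncomputable def Ap (σ : Equiv.Perm (Fin k)) (ε : Fin k → Bool) (e : Fin k → ℕ) (a b : Fin k) :
    MvPolynomial (Fin k) ℚ :=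
  (∏ i ∈ oth a b, Yp σ ε i ^ e i) *
    PP (fun i i' => mm (uu (Yp σ ε i)) (Yp σ ε i')) (oth a b)

lemma Ap_mem {σ : Equiv.Perm (Fin k)} {ε : Fin k → Bool} (e : Fin k → ℕ) {a b j q : Fin k}
    (ha : σ a = j) (hb : σ b = q) : Ap σ ε e a b ∈ Sb j q := by
  unfold Ap PP
  refine mul_mem (prod_mem fun i hi => pow_mem (Yp_mem ha hb hi) _)
    (prod_mem fun i hi => prod_mem fun i' hi' => ?_)
  split_ifs
  · exact mm_mem (uu_mem (Yp_mem ha hb hi)) (Yp_mem ha hb hi')
  · exact one_mem _

lemma aeval_Ap {K : Type} [Field K] [Algebra ℚ K] (X : Fin k → K) (σ : Equiv.Perm (Fin k))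
    (ε : Fin k → Bool) (e : Fin k → ℕ) (a b : Fin k) :
    MvPolynomial.aeval X (Ap σ ε e a b) = (∏ i ∈ oth a b, (flp ε X ∘ σ) i ^ e i) *
      PP (fun i i' => mm (uu ((flp ε X ∘ σ) i)) ((flp ε X ∘ σ) i')) (oth a b) := by
  unfold Ap PP
  rw [map_mul, map_prod, map_prod]
  congr 1
  · refine Finset.prod_congr rfl fun i _ => ?_
    rw [map_pow, aeval_Yp]
  · refine Finset.prod_congr rfl fun i _ => ?_
    rw [map_prod]
    refine Finset.prod_congr rfl fun i' _ => ?_
    split_ifs
    · have h := map_mm (MvPolynomial.aeval X : MvPolynomial (Fin k) ℚ →ₐ[ℚ] K).toRingHom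
        (uu (Yp σ ε i)) (Yp σ ε i')
      rw [map_uu] at h
      have e1 := aeval_Yp X σ ε i
      have e2 := aeval_Yp X σ ε i'
      change (MvPolynomial.aeval X) (mm (uu (Yp σ ε i)) (Yp σ ε i')) =
        mm (uu ((flp ε X ∘ σ) i)) ((flp ε X ∘ σ) i')
      rw [← e1, ← e2]
      exact h
    · exact map_one _

/-- the statement about one other variable -/
def OneP (σ : Equiv.Perm (Fin k)) (ε : Fin k → Bool) (a b i : Fin k)
    (Q : Polynomial (MvPolynomial (Fin k) ℚ)) : Prop :=
  ∀ (K : Type) [Field K] [Algebra ℚ K] (X : Fin k → K), X (σ a) * X (σ b) = 1 →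
    X (σ b) * (MM (fun i i' => mm (uu ((flp ε X ∘ σ) i)) ((flp ε X ∘ σ) i')) i a *
        MM (fun i i' => mm (uu ((flp ε X ∘ σ) i)) ((flp ε X ∘ σ) i')) i b) =
      (1 - uu (X (σ a)) * uu (X (σ b)) * uu (X (σ i))) * evh X (X (σ b)) Q

lemma one_other (σ : Equiv.Perm (Fin k)) (ε : Fin k → Bool) {a b i : Fin k}
    (hi : i ∈ oth a b)
    (H : (a < b ∧ ε (σ b) = false) ∨ (b < a ∧ ε (σ a) = false)) :
    ∃ Q : Polynomial (MvPolynomial (Fin k) ℚ), Q.natDegree ≤ 2 ∧ Q ∈ CS (σ a) (σ b) ∧
      OneP σ ε a b i Q := by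
  have hz := Yp_mem (σ := σ) (ε := ε) (a := a) (b := b) rfl rfl hi
  have hu := uu_mem hz
  have h1z := sub_mem (one_mem _) hz
  have hX := X_mem_CS (σ a) (σ b)
  have h1 := one_mem (CS (σ a) (σ b))
  rw [mem_oth] at hi
  obtain ⟨hia, hib⟩ := hi
  have hal : ∀ {K : Type} [Field K] [Algebra ℚ K] (X : Fin k → K),
      MvPolynomial.aeval X (Yp σ ε i) = (flp ε X ∘ σ) i := fun X => aeval_Yp X σ ε i
  have halu : ∀ {K : Type} [Field K] [Algebra ℚ K] (X : Fin k → K),
      MvPolynomial.aeval X (uu (Yp σ ε i)) = uu (X (σ i)) := by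
    intro K _ _ X
    have h := map_uu (MvPolynomial.aeval X : MvPolynomial (Fin k) ℚ →ₐ[ℚ] K).toRingHom (Yp σ ε i)
    have h2 : uu (MvPolynomial.aeval X (Yp σ ε i)) = uu (X (σ i)) := by
      rw [hal, Function.comp, uu_flp]
    exact h.trans h2
  have hyx : ∀ {K : Type} [Field K] (x y : K), x * y = 1 → y ≠ 0 ∧ x = y⁻¹ := by
    intro K _ x y h
    have hy : y ≠ 0 := right_ne_zero_of_mul_eq_one h
    exact ⟨hy, eq_inv_of_mul_eq_one_left h⟩
  rcases H with ⟨hab, hε⟩ | ⟨hab, hε⟩
  · rcases lt_or_gt_of_ne hia with h | h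
    · -- i before both
      have h2 : i < b := h.trans hab
      cases hε2 : ε (σ a)
      · refine ⟨Polynomial.X + Polynomial.C (uu (Yp σ ε i)) * (Polynomial.X - 1) ^ 2,
          by compute_degree, add_mem hX (mul_mem (C_mem_CS hu) (pow_mem (sub_mem hX h1) 2)), ?_⟩
        intro K _ _ X hXX
        obtain ⟨hy, hx⟩ := hyx _ _ hXX
        simp only [MM, if_pos h, if_pos h2, Function.comp, uu_flp, map_add, map_mul, map_pow,
          map_sub, map_one, evh_X, evh_C, halu]
        simp only [flp, hε, hε2]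
        generalize X (σ b) = y at *
        generalize uu (X (σ i)) = u at *
        simp only [hx, mm, uu, Bool.false_eq_true, if_false]
        field_simp
        ring
      · refine ⟨Polynomial.X ^ 2 - Polynomial.X + Polynomial.C (uu (Yp σ ε i)),
          by compute_degree, add_mem (sub_mem (pow_mem hX 2) hX) (C_mem_CS hu), ?_⟩
        intro K _ _ X hXX
        obtain ⟨hy, hx⟩ := hyx _ _ hXX
        simp only [MM, if_pos h, if_pos h2, Function.comp, uu_flp, map_add, map_mul, map_pow,
          map_sub, map_one, evh_X, evh_C, halu]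
        simp only [flp, hε, hε2]
        generalize X (σ b) = y at *
        generalize uu (X (σ i)) = u at *
        simp only [hx, mm, uu, Bool.false_eq_true, if_false, if_true]
        field_simp
        ring
    · rcases lt_or_gt_of_ne hib with h2 | h2
      · -- between
        refine ⟨Polynomial.X ^ 2 * Polynomial.C (Yp σ ε i) +
          (Polynomial.X - 1) * Polynomial.C (1 - Yp σ ε i) ^ 2,
          by compute_degree, add_mem (mul_mem (pow_mem hX 2) (C_mem_CS hz))
            (mul_mem (sub_mem hX h1) (pow_mem (C_mem_CS h1z) 2)), ?_⟩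
        intro K _ _ X hXX
        obtain ⟨hy, hx⟩ := hyx _ _ hXX
        simp only [MM, if_neg (not_lt.2 h.le), if_pos h2, Function.comp, uu_flp, map_add, map_mul,
          map_pow, map_sub, map_one, evh_X, evh_C, hal]
        simp only [flp, hε]
        generalize X (σ b) = y at *
        generalize uu (X (σ i)) = u at *
        simp only [hx, mm, uu, Bool.false_eq_true, if_false]
        field_simp
        ring
      · -- after both
        refine ⟨(Polynomial.X - Polynomial.C (1 - Yp σ ε i)) *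
          (1 - Polynomial.X * Polynomial.C (1 - Yp σ ε i)),
          by compute_degree, mul_mem (sub_mem hX (C_mem_CS h1z))
            (sub_mem h1 (mul_mem hX (C_mem_CS h1z))), ?_⟩
        intro K _ _ X hXX
        obtain ⟨hy, hx⟩ := hyx _ _ hXX
        have hui : uu (X (σ i)) = uu ((flp ε X ∘ σ) i) := (uu_flp ε X (σ i)).symm
        rw [hui]
        simp only [MM, if_neg (not_lt.2 h.le), if_neg (not_lt.2 h2.le), map_add, map_mul,
          map_pow, map_sub, map_one, evh_X, evh_C, hal]
        have hua : uu ((flp ε X ∘ σ) a) = uu (X (σ a)) := uu_flp ε X (σ a)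
        have hub : uu ((flp ε X ∘ σ) b) = uu (X (σ b)) := uu_flp ε X (σ b)
        rw [hua, hub]
        generalize (flp ε X ∘ σ) i = z at *
        generalize X (σ b) = y at *
        simp only [hx, mm, uu]
        field_simp
        ring
  · rcases lt_or_gt_of_ne hib with h | h
    · -- i before both
      have h2 : i < a := h.trans hab
      cases hε2 : ε (σ b)
      · refine ⟨Polynomial.X + Polynomial.C (uu (Yp σ ε i)) * (1 - Polynomial.X) ^ 2,
          by compute_degree, add_mem hX (mul_mem (C_mem_CS hu) (pow_mem (sub_mem h1 hX) 2)), ?_⟩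
        intro K _ _ X hXX
        obtain ⟨hy, hx⟩ := hyx _ _ hXX
        simp only [MM, if_pos h, if_pos h2, Function.comp, uu_flp, map_add, map_mul, map_pow,
          map_sub, map_one, evh_X, evh_C, halu]
        simp only [flp, hε, hε2]
        generalize X (σ b) = y at *
        generalize uu (X (σ i)) = u at *
        simp only [hx, mm, uu, Bool.false_eq_true, if_false]
        field_simp
        ring
      · refine ⟨1 - Polynomial.X + Polynomial.C (uu (Yp σ ε i)) * Polynomial.X ^ 2,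
          by compute_degree, add_mem (sub_mem h1 hX) (mul_mem (C_mem_CS hu) (pow_mem hX 2)), ?_⟩
        intro K _ _ X hXX
        obtain ⟨hy, hx⟩ := hyx _ _ hXX
        simp only [MM, if_pos h, if_pos h2, Function.comp, uu_flp, map_add, map_mul, map_pow,
          map_sub, map_one, evh_X, evh_C, halu]
        simp only [flp, hε, hε2]
        generalize X (σ b) = y at *
        generalize uu (X (σ i)) = u at *
        simp only [hx, mm, uu, Bool.false_eq_true, if_false, if_true]
        field_simp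
        ring
    · rcases lt_or_gt_of_ne hia with h2 | h2
      · -- between
        refine ⟨Polynomial.C (Yp σ ε i) +
          Polynomial.X * (1 - Polynomial.X) * Polynomial.C (1 - Yp σ ε i) ^ 2,
          by compute_degree, add_mem (C_mem_CS hz)
            (mul_mem (mul_mem hX (sub_mem h1 hX)) (pow_mem (C_mem_CS h1z) 2)), ?_⟩
        intro K _ _ X hXX
        obtain ⟨hy, hx⟩ := hyx _ _ hXX
        simp only [MM, if_neg (not_lt.2 h.le), if_pos h2, Function.comp, uu_flp, map_add, map_mul,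
          map_pow, map_sub, map_one, evh_X, evh_C, hal]
        simp only [flp, hε]
        generalize X (σ b) = y at *
        generalize uu (X (σ i)) = u at *
        simp only [hx, mm, uu, Bool.false_eq_true, if_false]
        field_simp
        ring
      · -- after both
        refine ⟨(Polynomial.X - Polynomial.C (1 - Yp σ ε i)) *
          (1 - Polynomial.X * Polynomial.C (1 - Yp σ ε i)),
          by compute_degree, mul_mem (sub_mem hX (C_mem_CS h1z))
            (sub_mem h1 (mul_mem hX (C_mem_CS h1z))), ?_⟩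
        intro K _ _ X hXX
        obtain ⟨hy, hx⟩ := hyx _ _ hXX
        have hui : uu (X (σ i)) = uu ((flp ε X ∘ σ) i) := (uu_flp ε X (σ i)).symm
        rw [hui]
        simp only [MM, if_neg (not_lt.2 h.le), if_neg (not_lt.2 h2.le), map_add, map_mul,
          map_pow, map_sub, map_one, evh_X, evh_C, hal]
        have hua : uu ((flp ε X ∘ σ) a) = uu (X (σ a)) := uu_flp ε X (σ a)
        have hub : uu ((flp ε X ∘ σ) b) = uu (X (σ b)) := uu_flp ε X (σ b)
        rw [hua, hub]
        generalize (flp ε X ∘ σ) i = z at *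
        generalize X (σ b) = y at *
        simp only [hx, mm, uu]
        field_simp
        ring

/-- assembly -/
lemma main (σ : Equiv.Perm (Fin k)) (ε : Fin k → Bool) (e : Fin k → ℕ) {a b : Fin k}
    (hne : a ≠ b) (H : (a < b ∧ ε (σ b) = false) ∨ (b < a ∧ ε (σ a) = false))
    {n d : ℕ} {P : Polynomial (MvPolynomial (Fin k) ℚ)} (hd : P.natDegree ≤ d)
    (hP : P ∈ CS (σ a) (σ b))
    (hE : ∀ (K : Type) [Field K] [Algebra ℚ K] (X : Fin k → K), X (σ a) * X (σ b) = 1 →
      X (σ b) ^ n * ((flp ε X ∘ σ) a ^ e a * (flp ε X ∘ σ) b ^ e b *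
        MM (fun i i' => mm (uu ((flp ε X ∘ σ) i)) ((flp ε X ∘ σ) i')) b a) =
          evh X (X (σ b)) P) :
    ∃ Q : Polynomial (MvPolynomial (Fin k) ℚ), Q.natDegree ≤ d + 2 * (k - 2) ∧
      (∀ m, (Q.coeff m).degreeOf (σ a) = 0 ∧ (Q.coeff m).degreeOf (σ b) = 0) ∧
      ∀ (K : Type) [Field K] [Algebra ℚ K] (X : Fin k → K), X (σ a) * X (σ b) = 1 →
        X (σ b) ^ (n + (k - 2)) * ff e (flp ε X ∘ σ)
          = (∏ r ∈ univ.filter (fun r => r ≠ σ a ∧ r ≠ σ b),
              (1 - uu (X (σ a)) * uu (X (σ b)) * uu (X r))) *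
            (Q.map (MvPolynomial.aeval X).toRingHom).eval (X (σ b)) := by
  have hcard : (oth a b).card = k - 2 := by
    have := card_oth hne
    omega
  have hex : ∀ i, ∃ Q : Polynomial (MvPolynomial (Fin k) ℚ), i ∈ oth a b →
      Q.natDegree ≤ 2 ∧ Q ∈ CS (σ a) (σ b) ∧ OneP σ ε a b i Q := by
    intro i
    by_cases hi : i ∈ oth a b
    · obtain ⟨Q, hQ⟩ := one_other σ ε hi H
      exact ⟨Q, fun _ => hQ⟩
    · exact ⟨0, fun h => absurd h hi⟩
  choose F hF using hex
  refine ⟨P * (∏ i ∈ oth a b, F i) * Polynomial.C (Ap σ ε e a b), ?_, ?_, ?_⟩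
  · refine (Polynomial.natDegree_mul_C_le _ _).trans (Polynomial.natDegree_mul_le.trans ?_)
    refine Nat.add_le_add hd ((Polynomial.natDegree_prod_le _ _).trans ?_)
    refine (Finset.sum_le_card_nsmul _ _ 2 fun i hi => (hF i hi).1).trans ?_
    rw [hcard, smul_eq_mul, mul_comm]
  · exact mul_mem (mul_mem hP (prod_mem fun i hi => (hF i hi).2.1)) (C_mem_CS (Ap_mem e rfl rfl))
  · intro K _ _ X hXX
    rw [evh_eq, map_mul, map_mul, map_prod, evh_C, aeval_Ap, prod_oth σ (a := a) (b := b) rfl rfl,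
      ff_split e _ hne, ← hE K X hXX, pow_add]
    have h1 : X (σ b) ^ (k - 2) *
        ∏ i ∈ oth a b, (MM (fun i i' => mm (uu ((flp ε X ∘ σ) i)) ((flp ε X ∘ σ) i')) i a *
          MM (fun i i' => mm (uu ((flp ε X ∘ σ) i)) ((flp ε X ∘ σ) i')) i b) =
        (∏ i ∈ oth a b, (1 - uu (X (σ a)) * uu (X (σ b)) * uu (X (σ i)))) *
          ∏ i ∈ oth a b, evh X (X (σ b)) (F i) := by
      rw [← Finset.prod_mul_distrib, ← hcard, ← Finset.prod_const, ← Finset.prod_mul_distrib]
      exact Finset.prod_congr rfl fun i hi => (hF i hi).2.2 K X hXX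
    linear_combination (X (σ b) ^ n * ((flp ε X ∘ σ) a ^ e a * (flp ε X ∘ σ) b ^ e b *
        MM (fun i i' => mm (uu ((flp ε X ∘ σ) i)) ((flp ε X ∘ σ) i')) b a) *
        ((∏ i ∈ oth a b, (flp ε X ∘ σ) i ^ e i) *
          PP (fun i i' => mm (uu ((flp ε X ∘ σ) i)) ((flp ε X ∘ σ) i')) (oth a b))) * h1

end Pool.Agent.H946.GM
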